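import Pool.Agent.W307.LS.Stm

/-!
# Project LS: the curves with a rational cyclic subgroup of order 4
-/

set_option autoImplicit false

namespace Pool.Agent.W307.LS

open WeierstrassCurve Pool.Agent.W262.SH

open scoped Classical

/-- PAR: every elliptic curve over `ℚ` with a rational cyclic subgroup of order 4 (generated by a
point `Q` of order 4 with `σ Q = ± Q` for all `σ`) is isomorphic to some `F4 a b` -/
def PAR : Prop := ∀ W : WeierstrassCurve ℚ, W.Δ ≠ 0 →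
  (∃ Q : Pt W QB, Q + Q ≠ 0 ∧ (Q + Q) + (Q + Q) = 0 ∧
    ∀ σ : QB ≃ₐ[ℚ] QB, act W σ.toAlgHom Q = Q ∨ act W σ.toAlgHom Q = -Q) →
  ∃ (a b : ℤ) (C : WeierstrassCurve.VariableChange ℚ), a ≠ 0 ∧ b ≠ 0 ∧ a ≠ b ∧
    Squarefree (Int.gcd a b) ∧ C • W = F4 a b

end Pool.Agent.W307.LS
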