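import Mathlib
import Pool.Agent.W262.SH.Stm

/-!
# Project LS: curves with a cyclic 4-isogeny, large `Ш[2]` and bounded ranks: statements

`F4 a b` is `y² = x (x² + 2 (a + b) x + (a - b)²)`, 2-isogenous to
`E (4 a) (4 b) : y² = x (x - 4 a) (x - 4 b)`.
-/

set_option autoImplicit false

namespace Pool.Agent.W307.LS

open Finset WeierstrassCurve Pool.Agent.W262.SH Filter

open scoped Classical

/-- the curve `y² = x (x² + 2 (a + b) x + (a - b)²)` over `ℚ` -/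
def F4 (a b : ℤ) : WeierstrassCurve ℚ := ⟨0, 2 * ((a : ℚ) + b), 0, ((a : ℚ) - b) ^ 2, 0⟩

/-- the point `(0, 0)` -/
noncomputable def T0 (a b : ℤ) (L : Type) [Field L] [Algebra ℚ L] : Pt (F4 a b) L :=
  if h : ((F4 a b).baseChange L).toAffine.Nonsingular 0 0 then Affine.Point.some 0 0 h else 0

/-- the cocycle that belongs to the square root `s` of an integer -/
noncomputable def cs (a b : ℤ) (s : QB) (σ : QB ≃ₐ[ℚ] QB) : Pt (F4 a b) QB :=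
  if σ s = s then 0 else T0 a b QB

/-- ISO: the 2-isogeny is a homomorphism -/
def ISO : Prop := ∀ (L : Type) [Field L] [DecidableEq L] [CharZero L] (W W' : WeierstrassCurve.Affine L),
  W.a₁ = 0 → W.a₃ = 0 → W.a₆ = 0 → W.a₄ ≠ 0 → W'.a₁ = 0 → W'.a₃ = 0 → W'.a₆ = 0 →
  W'.a₂ = -2 * W.a₂ → W'.a₄ = W.a₂ ^ 2 - 4 * W.a₄ → W'.a₄ ≠ 0 →
  ∃ φ : W.Point →+ W'.Point,
    (∀ (x y : L) (h : W.Nonsingular x y), x ≠ 0 →
      ∃ h' : W'.Nonsingular (y ^ 2 / x ^ 2) (y * (W.a₄ - x ^ 2) / x ^ 2),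
        φ (Affine.Point.some x y h) = Affine.Point.some _ _ h') ∧
    ∀ (y : L) (h : W.Nonsingular 0 y), φ (Affine.Point.some 0 y h) = 0

/-- RNK: the rank of `F4 a b` is at most that of `E (4 a) (4 b)` -/
def RNK : Prop := ∀ a b : ℤ, a ≠ 0 → b ≠ 0 → a ≠ b →
  AddGroup.FG (F4 a b).toAffine.Point ∧
  Module.finrank ℤ (F4 a b).toAffine.Point ≤
    Module.finrank ℤ (E (4 * a) (4 * b)).toAffine.Point

/-- SHB: `Ш` and the isogeny -/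
def SHB : Prop := ∀ a b : ℤ, a ≠ 0 → b ≠ 0 → a ≠ b → ∀ r : ℕ,
  (∃ j : (Fin r → ZMod 4) →+ Sha (F4 a b), Function.Injective j) →
  ∃ j : (Fin r → ZMod 2) →+ Sha (E (4 * a) (4 * b)), Function.Injective j

/-- COC: `cs a b s` is a cocycle -/
def COC : Prop := ∀ (a b d : ℤ) (s : QB), s ^ 2 = (d : QB) → d ≠ 0 → IsCoc (F4 a b) (cs a b s)

/-- ADD: `cs a b` is additive -/
def ADD : Prop := ∀ (a b d e : ℤ) (s t : QB), s ^ 2 = (d : QB) → t ^ 2 = (e : QB) → d ≠ 0 →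
  e ≠ 0 → cs a b (s * t) = cs a b s + cs a b t

/-- LT1: local triviality if `d` is a square -/
def LT1 : Prop := ∀ (a b : ℤ) (K : Type) [Field K] [Algebra ℚ K] (d : ℤ) (s : QB) (k : K),
  s ^ 2 = (d : QB) → k ^ 2 = (d : K) → LocTriv (F4 a b) K (cs a b s)

/-- LT2: local triviality if `d` is the square class of the `x`-coordinate of a point -/
def LT2 : Prop := ∀ (a b : ℤ), a ≠ 0 → b ≠ 0 → a ≠ b → ∀ (K : Type) [Field K] [Algebra ℚ K]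
  (d : ℤ) (s : QB) (x y k : K), d ≠ 0 → s ^ 2 = (d : QB) → k ≠ 0 → x = (d : K) * k ^ 2 →
  y ^ 2 = x * (x - 4 * a) * (x - 4 * b) → LocTriv (F4 a b) K (cs a b s)

/-- `d` is, up to a square of `K`, trivial or the `x`-coordinate of a point -/
def Rep (a b : ℤ) (K : Type) [Field K] (d : ℤ) : Prop := (∃ k : K, k ^ 2 = (d : K)) ∨
  ∃ x y k : K, k ≠ 0 ∧ x = (d : K) * k ^ 2 ∧ y ^ 2 = x * (x - 4 * a) * (x - 4 * b)

/-- PTG: good primes -/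
def PTG : Prop := ∀ (p : ℕ) [Fact p.Prime] (a b d : ℤ), p ≠ 2 → ¬ (p : ℤ) ∣ a → ¬ (p : ℤ) ∣ b →
  ¬ (p : ℤ) ∣ a - b → ¬ (p : ℤ) ∣ d → Rep a b ℚ_[p] d

/-- PTN: primes of nonsplit multiplicative reduction -/
def PTN : Prop := ∀ (p : ℕ) [Fact p.Prime] (a b d : ℤ), p ≠ 2 → jacobiSym a p = -1 →
  ¬ (p : ℤ) ∣ d → Rep a b ℚ_[p] d

/-- PTS: primes that divide `a` exactly once, and not `b` -/
def PTS : Prop := ∀ (p : ℕ) [Fact p.Prime] (a b d : ℤ), p ≠ 2 → (p : ℤ) ∣ a →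
  ¬ (p : ℤ) ^ 2 ∣ a → ¬ (p : ℤ) ∣ b → d ≠ 0 →
  ∃ e f : ℤ, e ≠ 0 ∧ f ≠ 0 ∧ Rep a b ℚ_[p] e ∧ Rep a b ℚ_[p] f ∧
    ∃ k : ℚ_[p], k ^ 2 = ((d * e * f : ℤ) : ℚ_[p])

/-- PTQ: squares -/
def PTQ : Prop := (∀ (p : ℕ) [Fact p.Prime] (d : ℤ), p ≠ 2 → jacobiSym d p = 1 →
    ∃ k : ℚ_[p], k ^ 2 = (d : ℚ_[p])) ∧
  ∀ d : ℤ, d % 8 = 1 → ∃ k : ℚ_[2], k ^ 2 = (d : ℚ_[2])

/-- the odd primes that divide `a b` exactly once -/
def SS (a b : ℤ) : Finset ℕ :=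
  (a * b).natAbs.primeFactors.filter (fun p => p ≠ 2 ∧ ¬ (p : ℤ) ^ 2 ∣ a * b)

/-- the bad odd primes -/
def BB (a b : ℤ) : Finset ℕ :=
  (a * b * (a - b)).natAbs.primeFactors.filter (fun q => q ≠ 2 ∧ ((q : ℤ) ^ 2 ∣ a * b ∨
    ((q : ℤ) ∣ a - b ∧ ¬ (q : ℤ) ∣ a * b ∧ jacobiSym a q = 1)))

/-- the admissible `d` -/
def Adm (a b : ℤ) (d : ℕ) : Prop := Squarefree d ∧ d % 8 = 1 ∧
  (∀ p : ℕ, p.Prime → p ∣ d → p ∈ SS a b) ∧ ∀ q ∈ BB a b, jacobiSym d q = 1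

/-- MEM: the cocycles of the admissible `d` are everywhere locally trivial -/
def MEM : Prop := ∀ a b : ℤ, a ≠ 0 → b ≠ 0 → a ≠ b → ∀ (d : ℕ) (s : QB), Adm a b d →
  s ^ 2 = (d : QB) → cs a b s ∈ shaCoc (F4 a b)

/-- DCNT: the number of the admissible `d` -/
def DCNT : Prop := ∀ a b : ℤ, a ≠ 0 → b ≠ 0 → a ≠ b → ∃ D : Finset ℕ, (∀ d ∈ D, Adm a b d) ∧
  2 ^ (SS a b).card ≤ 2 ^ ((BB a b).card + 2) * D.card

/-- KERS: many cocycles give a large subgroup of `Ш` -/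
def KERS : Prop := ∀ a b : ℤ, a ≠ 0 → b ≠ 0 → a ≠ b → AddGroup.FG (F4 a b).toAffine.Point →
  ∀ (D : Finset ℕ) (n : ℕ), (∀ d ∈ D, Squarefree d) →
  (∀ d ∈ D, ∀ s : QB, s ^ 2 = (d : QB) → cs a b s ∈ shaCoc (F4 a b)) →
  16 * 2 ^ Module.finrank ℤ (F4 a b).toAffine.Point * 2 ^ n ≤ D.card →
  ∃ j : (Fin n → ZMod 2) →+ Sha (F4 a b), Function.Injective j

/-- the pairs of nonzero different integers of absolute value at most `T` -/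
noncomputable def Bx (T : ℕ) : Finset (ℤ × ℤ) :=
  (Icc (-(T : ℤ)) T ×ˢ Icc (-(T : ℤ)) T).filter (fun t => t.1 ≠ 0 ∧ t.2 ≠ 0 ∧ t.1 ≠ t.2)

/-- DENS: `#SS - #BB` is at least `(3/2 - ε) log log T` for almost all pairs -/
def DENS : Prop := ∀ ε : ℝ, 0 < ε → Tendsto (fun T : ℕ => (((Bx T).filter (fun t =>
  ((SS t.1 t.2).card : ℝ) - (BB t.1 t.2).card < (3 / 2 - ε) * Real.log (Real.log T))).card : ℝ) /
    (T : ℝ) ^ 2) atTop (nhds 0)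

end Pool.Agent.W307.LS
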