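import Pool.Agent.W307.LS.Main
import Pool.Agent.W307.LS.Stm2
import Pool.Agent.W636.LS.Iso
import Pool.Agent.W782.LS.RNK
import Pool.Agent.W915.LS.SHB
import Pool.Agent.W153.LS.Coc
import Pool.Agent.W975.LS.LT2
import Pool.Agent.W605.LS.PTS
import Pool.Agent.W131.LS.Dcnt
import Pool.Agent.W50.LS.Kers
import Pool.Agent.W140.LS.Par
import Pool.Agent.W940.LSD.Asm
import Pool.Agent.W940.LSD.Chr
import Pool.Agent.W7.LSD.Tur
import Pool.Agent.W594.LSD.Mer
import Pool.Agent.W481.LSD.Msb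
import Pool.Agent.W249.LSD.Det

/-!
# Project LS: conclusion
-/

set_option autoImplicit false

namespace Pool.Agent.W307.LS

open Finset WeierstrassCurve Pool.Agent.W262.SH Filter

open scoped Classical

theorem par : PAR := Pool.Agent.W140.LS.par

theorem iso : ISO := Pool.Agent.W636.LS.iso

theorem rnk : RNK := Pool.Agent.W782.LS.rnk_of iso

theorem mem : MEM := mem_of Pool.Agent.W153.LS.coc Pool.Agent.W153.LS.add Pool.Agent.W153.LS.lt1
  Pool.Agent.W975.LS.LT2.lt2 Pool.Agent.W605.LS.ptg Pool.Agent.W605.LS.ptn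
  Pool.Agent.W605.LS.pts Pool.Agent.W605.LS.ptq

theorem dens : DENS := Pool.Agent.W940.LSD.dens Pool.Agent.W7.LSD.tur Pool.Agent.W940.LSD.chr
  Pool.Agent.W594.LSD.mer Pool.Agent.W481.LSD.msb Pool.Agent.W249.LSD.det

theorem big : ∀ ε : ℝ, 0 < ε → Tendsto (fun T : ℕ => (((Fam T).filter (fun t =>
      ∀ n : ℕ, (n : ℝ) ≤ (3 / 2 - ε) * Real.log (Real.log T) →
        ∃ j : (Fin n → ZMod 2) →+ Sha (F4 t.1 t.2), Function.Injective j)).card : ℝ) /
      (Fam T).card) atTop (nhds 1) :=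
  big_of rnk mem Pool.Agent.W131.LS.dcnt Pool.Agent.W50.LS.kers dens

theorem small : ∃ C : ℝ, ∀ (T : ℕ) (r : ℤ × ℤ → ℕ),
    (∀ t ∈ Fam T, ∃ j : (Fin (r t) → ZMod 4) →+ Sha (F4 t.1 t.2), Function.Injective j) →
    ∑ t ∈ Fam T, (4 : ℝ) ^ (Module.finrank ℤ (F4 t.1 t.2).toAffine.Point + r t) ≤
      C * (Fam T).card :=
  small_of rnk (Pool.Agent.W915.LS.shb_of iso)

end Pool.Agent.W307.LS
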