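import Pool.Agent.W307.LS.Stm
import Pool.Agent.W307.AT.Ht
import Pool.Agent.W307.FK.Sha

/-!
# Project LS: the second moment of the weight in the box

Adaptation of `Pool.Agent.W410.FK.FINH` (helper410).
-/

set_option autoImplicit false

namespace Pool.Agent.W307.LS

open Finset Pool.Agent.W262.RK Pool.Agent.W307.RT Pool.Agent.W307.RS Pool.Agent.W307.SE
open Pool.Agent.W307.FK Pool.Agent.W410.FK

open Classical in
/-- the square of `G (D a) (D b)` -/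
noncomputable def GD (G : ℤ → ℤ → ℕ) (D : ℤ) (t : ℤ × ℤ) : ℝ :=
  if t.1 ≠ 0 ∧ t.2 ≠ 0 ∧ t.1 ≠ t.2 then (G (D * t.1) (D * t.2) : ℝ) ^ 2 else 0

lemma GD_nonneg (G : ℤ → ℤ → ℕ) (D : ℤ) (t : ℤ × ℤ) : 0 ≤ GD G D t := by
  unfold GD
  split_ifs
  · positivity
  · exact le_rfl

lemma box_GD {G : ℤ → ℤ → ℕ} (h1 : Pool.Agent.W307.FK.G.AVGNG G) (h2 : SOM) : ∃ C : ℝ, 0 ≤ C ∧ ∀ D : ℤ, D ≠ 0 → ∀ T : ℕ, 1 ≤ T →
    ∑ t ∈ Box T, GD G D t ≤ C * 128 ^ D.natAbs.primeFactors.card * (T : ℝ) ^ 2 := by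
  classical
  obtain ⟨C1, hC1, h1⟩ := h1 1
  obtain ⟨C2, hC2, h2⟩ := h2
  refine ⟨9 * C1 * C2, by positivity, fun D hD T hT => ?_⟩
  obtain ⟨Q, hQ⟩ : ∃ Q : ℝ, Q = 128 ^ D.natAbs.primeFactors.card := ⟨_, rfl⟩
  have hQ0 : 0 ≤ Q := by rw [hQ]; positivity
  rw [← hQ]
  -- decomposition with respect to the greatest common divisor
  set S := (Box T).filter fun t : ℤ × ℤ => t.1 ≠ 0 ∧ t.2 ≠ 0 ∧ t.1 ≠ t.2 with hS
  have e1 : ∑ t ∈ Box T, GD G D t = ∑ t ∈ S, GD G D t := by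
    symm
    apply sum_subset (filter_subset _ _)
    intro t ht ht2
    unfold GD
    rw [if_neg]
    intro h
    exact ht2 (mem_filter.2 ⟨ht, h⟩)
  let F : ℤ × ℤ → (Σ _ : ℕ, ℤ × ℤ) := fun t =>
    ⟨Int.gcd t.1 t.2, (t.1 / (Int.gcd t.1 t.2 : ℤ), t.2 / (Int.gcd t.1 t.2 : ℤ))⟩
  have hdiv : ∀ t : ℤ × ℤ, (Int.gcd t.1 t.2 : ℤ) * (t.1 / (Int.gcd t.1 t.2 : ℤ)) = t.1 ∧
      (Int.gcd t.1 t.2 : ℤ) * (t.2 / (Int.gcd t.1 t.2 : ℤ)) = t.2 := fun t =>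
    ⟨Int.mul_ediv_cancel' (Int.gcd_dvd_left _ _), Int.mul_ediv_cancel' (Int.gcd_dvd_right _ _)⟩
  have hinj : Set.InjOn F S := by
    intro t _ t' _ h
    have g1 : Int.gcd t.1 t.2 = Int.gcd t'.1 t'.2 := congrArg Sigma.fst h
    have g2 : (t.1 / (Int.gcd t.1 t.2 : ℤ), t.2 / (Int.gcd t.1 t.2 : ℤ)) =
        (t'.1 / (Int.gcd t'.1 t'.2 : ℤ), t'.2 / (Int.gcd t'.1 t'.2 : ℤ)) :=
      congrArg (fun x : (Σ _ : ℕ, ℤ × ℤ) => x.2) h
    rw [Prod.mk.injEq] at g2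
    obtain ⟨a1, a2⟩ := hdiv t
    obtain ⟨b1, b2⟩ := hdiv t'
    ext
    · rw [← a1, ← b1, g2.1, g1]
    · rw [← a2, ← b2, g2.2, g1]
  have hmem : ∀ t ∈ S, F t ∈ (Icc 1 T).sigma (fun g => Box (T / g)) ∧
      GD G D t = Pool.Agent.W307.FK.G.SSG G (D * ((F t).1 : ℤ)) (F t).2 := by
    intro t ht
    obtain ⟨ht1, t1, t2, t3⟩ := mem_filter.1 ht
    rw [mem_Box] at ht1
    obtain ⟨a1, a2⟩ := hdiv t
    have hg0 : 0 < Int.gcd t.1 t.2 := Int.gcd_pos_of_ne_zero_left _ t1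
    have hgT : Int.gcd t.1 t.2 ≤ T := by
      have : Int.gcd t.1 t.2 ≤ t.1.natAbs :=
        Nat.le_of_dvd (by omega) (Int.natCast_dvd.1 (Int.gcd_dvd_left _ _))
      omega
    have hb : ∀ x y : ℤ, (Int.gcd t.1 t.2 : ℤ) * x = y → y.natAbs ≤ T →
        x.natAbs ≤ T / Int.gcd t.1 t.2 := by
      intro x y hxy hy
      rw [Nat.le_div_iff_mul_le hg0]
      rw [← hxy, Int.natAbs_mul, Int.natAbs_natCast] at hy
      linarith
    refine ⟨?_, ?_⟩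
    · rw [mem_sigma, mem_Icc, mem_Box]
      exact ⟨⟨hg0, hgT⟩, hb _ _ a1 ht1.1, hb _ _ a2 ht1.2⟩
    · unfold GD Pool.Agent.W307.FK.G.SSG
      rw [if_pos ⟨t1, t2, t3⟩, if_pos]
      · change _ = (G (D * (Int.gcd t.1 t.2 : ℤ) * (t.1 / (Int.gcd t.1 t.2 : ℤ)))
          (D * (Int.gcd t.1 t.2 : ℤ) * (t.2 / (Int.gcd t.1 t.2 : ℤ))) : ℝ) ^ 2
        rw [mul_assoc, mul_assoc, a1, a2]
      · refine ⟨?_, ?_, ?_, ?_⟩
        · exact Int.isCoprime_iff_gcd_eq_one.2 (Int.gcd_ediv_gcd_ediv_gcd hg0)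
        · intro h
          apply t1
          change t.1 / (Int.gcd t.1 t.2 : ℤ) = 0 at h
          rw [← a1, h, mul_zero]
        · intro h
          apply t2
          change t.2 / (Int.gcd t.1 t.2 : ℤ) = 0 at h
          rw [← a2, h, mul_zero]
        · intro h
          apply t3
          change t.1 / (Int.gcd t.1 t.2 : ℤ) = t.2 / (Int.gcd t.1 t.2 : ℤ) at h
          exact a1.symm.trans ((congrArg (fun x => (Int.gcd t.1 t.2 : ℤ) * x) h).trans a2)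
  have e2 : ∑ t ∈ S, GD G D t ≤
      ∑ x ∈ (Icc 1 T).sigma (fun g => Box (T / g)), Pool.Agent.W307.FK.G.SSG G (D * (x.1 : ℤ)) x.2 := by
    calc ∑ t ∈ S, GD G D t = ∑ t ∈ S, Pool.Agent.W307.FK.G.SSG G (D * ((F t).1 : ℤ)) (F t).2 :=
          sum_congr rfl fun t ht => (hmem t ht).2
      _ = ∑ x ∈ S.image F, Pool.Agent.W307.FK.G.SSG G (D * (x.1 : ℤ)) x.2 := by rw [sum_image hinj]
      _ ≤ _ := sum_le_sum_of_subset_of_nonneg (fun x hx => by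
          obtain ⟨t, ht, rfl⟩ := mem_image.1 hx
          exact (hmem t ht).1) fun x _ _ => Pool.Agent.W307.FK.G.SSG_nonneg G _ _
  rw [e1]
  refine e2.trans ?_
  rw [sum_sigma]
  have e3 : ∀ g ∈ Icc 1 T, ∑ s ∈ Box (T / g), Pool.Agent.W307.FK.G.SSG G (D * (g : ℤ)) s ≤
      9 * C1 * Q * (T : ℝ) ^ 2 * ((128 : ℝ) ^ g.primeFactors.card / (g : ℝ) ^ 2) := by
    intro g hg
    rw [mem_Icc] at hg
    have hg0 : (0 : ℝ) < g := by exact_mod_cast hg.1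
    have hgz : D * (g : ℤ) ≠ 0 := mul_ne_zero hD (by exact_mod_cast (by omega : g ≠ 0))
    have f5 : (128 : ℝ) ^ (D * (g : ℤ)).natAbs.primeFactors.card ≤
        Q * 128 ^ g.primeFactors.card := by
      rw [hQ, ← pow_add, Int.natAbs_mul, Int.natAbs_natCast]
      refine pow_le_pow_right₀ (by norm_num) ?_
      rw [Nat.primeFactors_mul (Int.natAbs_ne_zero.2 hD) (by omega)]
      exact card_union_le _ _
    have h3 := box_uni (g := Pool.Agent.W307.FK.G.SSG G (D * (g : ℤ))) (A := C1 * (Q * 128 ^ g.primeFactors.card))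
      (by positivity)
      (fun N1 N2 X hX b1 b2 => by
        have h6 := h1 (D * (g : ℤ)) N1 N2 X hgz hX b1 b2
        refine h6.trans ?_
        exact mul_le_mul_of_nonneg_right (mul_le_mul_of_nonneg_left f5 hC1) (by positivity))
      (T := T / g) ((Nat.one_le_div_iff hg.1).2 hg.2)
    refine h3.trans ?_
    have h4 : (((T / g : ℕ) : ℝ)) ^ 2 ≤ ((T : ℝ) / g) ^ 2 :=
      pow_le_pow_left₀ (Nat.cast_nonneg _) Nat.cast_div_le 2
    calc C1 * (Q * 128 ^ g.primeFactors.card) * (9 * (((T / g : ℕ) : ℝ)) ^ 2)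
        ≤ C1 * (Q * 128 ^ g.primeFactors.card) * (9 * ((T : ℝ) / g) ^ 2) := by gcongr
      _ = _ := by
        field_simp
  refine (sum_le_sum e3).trans ?_
  rw [← mul_sum]
  calc 9 * C1 * Q * (T : ℝ) ^ 2 * ∑ g ∈ Icc 1 T, (128 : ℝ) ^ g.primeFactors.card / (g : ℝ) ^ 2
      ≤ 9 * C1 * Q * (T : ℝ) ^ 2 * C2 := mul_le_mul_of_nonneg_left (h2 T) (by positivity)
    _ = 9 * C1 * C2 * Q * (T : ℝ) ^ 2 := by ring

open Classical in
/-- the second moment of `2 ^ rank * #Ш[2]` in the box -/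
theorem wtb : ∃ C : ℝ, 0 ≤ C ∧ ∀ T : ℕ, 1 ≤ T →
    ∑ t ∈ Bx T, (Pool.Agent.W262.SH.wt (4 * t.1) (4 * t.2)) ^ 2 ≤ C * (T : ℝ) ^ 2 := by
  have h1 : Pool.Agent.W307.FK.G.AVGNG Pool.Agent.W307.FK.G.nS :=
    Pool.Agent.W307.FK.G.avgng_of (Pool.Agent.W307.FK.G.avgfg_of Pool.Agent.W307.FK.G.selfs
      Pool.Agent.W307.FK.cntf (Pool.Agent.W307.FK.maf_of Pool.Agent.W307.FK.expf)
      Pool.Agent.W503.FK.subf)
  obtain ⟨C, hC, h⟩ := box_GD h1 Pool.Agent.W334.FK.som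
  refine ⟨C * 128 ^ (4 : ℤ).natAbs.primeFactors.card, by positivity, fun T hT => ?_⟩
  refine le_trans ?_ (h 4 (by norm_num) T hT)
  calc ∑ t ∈ Bx T, (Pool.Agent.W262.SH.wt (4 * t.1) (4 * t.2)) ^ 2
      ≤ ∑ t ∈ Bx T, GD Pool.Agent.W307.FK.G.nS 4 t := by
        apply sum_le_sum
        intro t ht
        obtain ⟨_, t1, t2, t3⟩ := mem_filter.1 ht
        unfold GD
        rw [if_pos ⟨t1, t2, t3⟩]
        refine pow_le_pow_left₀ (Pool.Agent.W262.SH.wt_nonneg _ _) ?_ 2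
        exact Pool.Agent.W262.SH.wt_le Pool.Agent.W307.FK.G.desc5 Pool.Agent.W307.FK.G.sh1
          Pool.Agent.W307.FK.G.sh2 (mul_ne_zero (by norm_num) t1) (mul_ne_zero (by norm_num) t2)
          (fun h => t3 (mul_left_cancel₀ (by norm_num) h))
    _ ≤ ∑ t ∈ Box T, GD Pool.Agent.W307.FK.G.nS 4 t :=
        sum_le_sum_of_subset_of_nonneg (filter_subset _ _) fun t _ _ => GD_nonneg _ _ _

end Pool.Agent.W307.LS
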