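import Pool.Agent.W307.LS.Mem
import Pool.Agent.W307.LS.Box

/-!
# Project LS: assembly
-/

set_option autoImplicit false

namespace Pool.Agent.W307.LS

open Finset WeierstrassCurve Pool.Agent.W262.SH Filter

open scoped Classical

/-- the pairs of nonzero different integers of absolute value at most `T` with squarefree gcd -/
noncomputable def Fam (T : ℕ) : Finset (ℤ × ℤ) :=
  (Icc (-(T : ℤ)) T ×ˢ Icc (-(T : ℤ)) T).filter (fun t =>
    t.1 ≠ 0 ∧ t.2 ≠ 0 ∧ t.1 ≠ t.2 ∧ Squarefree (Int.gcd t.1 t.2))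

lemma fam_sub (T : ℕ) : Fam T ⊆ Bx T := by
  intro t ht
  obtain ⟨h1, h2, h3, h4, _⟩ := mem_filter.1 ht
  exact mem_filter.2 ⟨h1, h2, h3, h4⟩

lemma fam_low (T : ℕ) (hT : 1 ≤ T) : (1 / 4 : ℝ) * (T : ℝ) ^ 2 ≤ (Fam T).card := by
  rcases Nat.lt_or_ge T 2 with hT2 | hT2
  · obtain rfl : T = 1 := by omega
    have h1 : ((1, -1) : ℤ × ℤ) ∈ Fam 1 := by
      unfold Fam
      rw [mem_filter, mem_product, mem_Icc, mem_Icc]
      refine ⟨⟨⟨by norm_num, by norm_num⟩, ⟨by norm_num, by norm_num⟩⟩, by norm_num, by norm_num,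
        by norm_num, ?_⟩
      have : Int.gcd (1 : ℤ) (-1) = 1 := by decide
      change Squarefree (Int.gcd (1 : ℤ) (-1))
      rw [this]
      exact squarefree_one
    have h2 : 1 ≤ (Fam 1).card := card_pos.2 ⟨_, h1⟩
    have h3 : (1 : ℝ) ≤ (Fam 1).card := by exact_mod_cast h2
    push_cast
    linarith
  · have h1 := Pool.Agent.W307.FK.G.sqP_card T hT
    have h2 : (Pool.Agent.W307.FK.G.SqP T).card ≤ (Fam T).card + T := by
      let f : ℕ × ℕ → ℤ × ℤ := fun t => ((t.1 : ℤ), (t.2 : ℤ))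
      have hf : Function.Injective f := by
        intro t t' h
        have h1 := congrArg Prod.fst h
        have h2 := congrArg Prod.snd h
        simp only [f] at h1 h2
        exact Prod.ext (by exact_mod_cast h1) (by exact_mod_cast h2)
      have h3 : ((Pool.Agent.W307.FK.G.SqP T).filter (fun t => t.1 ≠ t.2)).image f ⊆ Fam T := by
        intro x hx
        obtain ⟨t, ht, rfl⟩ := mem_image.1 hx
        obtain ⟨ht1, ht2⟩ := mem_filter.1 ht
        unfold Pool.Agent.W307.FK.G.SqP at ht1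
        obtain ⟨ht3, ht4⟩ := mem_filter.1 ht1
        rw [mem_product, mem_Icc, mem_Icc] at ht3
        obtain ⟨⟨a1, a2⟩, ⟨b1, b2⟩⟩ := ht3
        unfold Fam
        rw [mem_filter, mem_product, mem_Icc, mem_Icc]
        simp only [f]
        refine ⟨⟨⟨by omega, by omega⟩, ⟨by omega, by omega⟩⟩, by omega, by omega, by omega, ?_⟩
        rw [Int.gcd_natCast_natCast]
        exact ht4
      have h4 : ((Pool.Agent.W307.FK.G.SqP T).filter (fun t => t.1 = t.2)).card ≤ T := by
        calc _ ≤ ((Icc 1 T).image (fun a : ℕ => (a, a))).card := by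
              apply card_le_card
              intro t ht
              obtain ⟨ht1, ht2⟩ := mem_filter.1 ht
              unfold Pool.Agent.W307.FK.G.SqP at ht1
              obtain ⟨ht3, _⟩ := mem_filter.1 ht1
              rw [mem_product] at ht3
              exact mem_image.2 ⟨t.1, ht3.1, Prod.ext rfl ht2⟩
          _ ≤ (Icc 1 T).card := card_image_le
          _ = T := by simp
      have h5 := card_filter_add_card_filter_not (s := Pool.Agent.W307.FK.G.SqP T)
        (fun t => t.1 = t.2)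
      have h6 := card_le_card h3
      rw [card_image_of_injective _ hf] at h6
      have h7 : ((Pool.Agent.W307.FK.G.SqP T).filter (fun t => ¬ t.1 = t.2)).card ≤
          (Fam T).card := le_trans (le_of_eq (by congr)) h6
      omega
    have h3 : ((Pool.Agent.W307.FK.G.SqP T).card : ℝ) ≤ (Fam T).card + T := by exact_mod_cast h2
    have h4 : (2 : ℝ) ≤ T := by exact_mod_cast hT2
    nlinarith

/-- finiteness of `Ш[2]` of the curves with full rational 2-torsion -/
lemma fin_E {a b : ℤ} (ha : a ≠ 0) (hb : b ≠ 0) (hab : a ≠ b) :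
    Finite {c : Sha (E (4 * a) (4 * b)) // c + c = 0} :=
  Pool.Agent.W262.SH.fin_sha Pool.Agent.W307.FK.G.desc5 Pool.Agent.W307.FK.G.sh1
    Pool.Agent.W307.FK.G.sh2 (mul_ne_zero (by norm_num) ha) (mul_ne_zero (by norm_num) hb)
    (fun h => hab (mul_left_cancel₀ (by norm_num) h))

lemma card_pos_E {a b : ℤ} (ha : a ≠ 0) (hb : b ≠ 0) (hab : a ≠ b) :
    (1 : ℝ) ≤ Nat.card {c : Sha (E (4 * a) (4 * b)) // c + c = 0} := by
  have := fin_E ha hb hab
  have : Nonempty {c : Sha (E (4 * a) (4 * b)) // c + c = 0} := ⟨⟨0, add_zero 0⟩⟩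
  exact_mod_cast Nat.card_pos

/-- the second part -/
theorem small_of (h1 : RNK) (h2 : SHB) : ∃ C : ℝ, ∀ (T : ℕ) (r : ℤ × ℤ → ℕ),
    (∀ t ∈ Fam T, ∃ j : (Fin (r t) → ZMod 4) →+ Sha (F4 t.1 t.2), Function.Injective j) →
    ∑ t ∈ Fam T, (4 : ℝ) ^ (Module.finrank ℤ (F4 t.1 t.2).toAffine.Point + r t) ≤
      C * (Fam T).card := by
  obtain ⟨C, hC, hb⟩ := wtb
  refine ⟨4 * C, fun T r hr => ?_⟩
  rcases Nat.eq_zero_or_pos T with rfl | hT
  · have h0 : Fam 0 = ∅ := by
      unfold Fam
      rw [filter_eq_empty_iff]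
      intro t ht hcon
      rw [mem_product, mem_Icc, mem_Icc] at ht
      exact hcon.1 (by push_cast at ht; omega)
    rw [h0]
    simp
  have h3 : ∑ t ∈ Fam T, (4 : ℝ) ^ (Module.finrank ℤ (F4 t.1 t.2).toAffine.Point + r t) ≤
      ∑ t ∈ Fam T, (wt (4 * t.1) (4 * t.2)) ^ 2 := by
    apply sum_le_sum
    intro t ht
    obtain ⟨j, hj⟩ := hr t ht
    obtain ⟨_, t1, t2, t3, _⟩ := mem_filter.1 ht
    obtain ⟨j', hj'⟩ := h2 t.1 t.2 t1 t2 t3 (r t) ⟨j, hj⟩
    obtain ⟨_, hrk⟩ := h1 t.1 t.2 t1 t2 t3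
    have := fin_E t1 t2 t3
    have h4 : 2 ^ r t ≤ Nat.card {c : Sha (E (4 * t.1) (4 * t.2)) // c + c = 0} := by
      have e1 : Nat.card (Fin (r t) → ZMod 2) = 2 ^ r t := by
        rw [Nat.card_eq_fintype_card, Fintype.card_fun, ZMod.card, Fintype.card_fin]
      rw [← e1]
      have hz : ∀ v : Fin (r t) → ZMod 2, v + v = 0 := by
        intro v
        funext i
        exact CharTwo.add_self_eq_zero (v i)
      exact Nat.card_le_card_of_injective
        (fun v => (⟨j' v, by rw [← map_add, hz v, map_zero]⟩ :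
          {c : Sha (E (4 * t.1) (4 * t.2)) // c + c = 0}))
        (fun v w h => hj' (congrArg Subtype.val h))
    have h5 : (2 : ℝ) ^ (Module.finrank ℤ (F4 t.1 t.2).toAffine.Point + r t) ≤
        wt (4 * t.1) (4 * t.2) := by
      unfold wt
      rw [pow_add]
      refine mul_le_mul (pow_le_pow_right₀ (by norm_num) hrk) (by exact_mod_cast h4)
        (by positivity) (by positivity)
    calc (4 : ℝ) ^ (Module.finrank ℤ (F4 t.1 t.2).toAffine.Point + r t)
        = ((2 : ℝ) ^ (Module.finrank ℤ (F4 t.1 t.2).toAffine.Point + r t)) ^ 2 := by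
          rw [← pow_mul, mul_comm, pow_mul]
          norm_num
      _ ≤ _ := pow_le_pow_left₀ (by positivity) h5 2
  have h4 : ∑ t ∈ Fam T, (wt (4 * t.1) (4 * t.2)) ^ 2 ≤ C * (T : ℝ) ^ 2 :=
    (sum_le_sum_of_subset_of_nonneg (fam_sub T) fun t _ _ => sq_nonneg _).trans (hb T hT)
  have h5 := fam_low T hT
  calc _ ≤ _ := h3
    _ ≤ C * (T : ℝ) ^ 2 := h4
    _ ≤ 4 * C * (Fam T).card := by nlinarith

lemma ll_tendsto : Tendsto (fun T : ℕ => Real.log (Real.log (T : ℝ))) atTop atTop :=
  Real.tendsto_log_atTop.comp (Real.tendsto_log_atTop.comp tendsto_natCast_atTop_atTop)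

/-- the first part -/
theorem big_of (h1 : RNK) (hmem : MEM) (hcnt : DCNT) (hker : KERS) (hdens : DENS) :
    ∀ ε : ℝ, 0 < ε → Tendsto (fun T : ℕ => (((Fam T).filter (fun t =>
      ∀ n : ℕ, (n : ℝ) ≤ (3 / 2 - ε) * Real.log (Real.log T) →
        ∃ j : (Fin n → ZMod 2) →+ Sha (F4 t.1 t.2), Function.Injective j)).card : ℝ) /
      (Fam T).card) atTop (nhds 1) := by
  intro ε hε
  obtain ⟨C, hC, hb⟩ := wtb
  obtain ⟨δ, hδ⟩ : ∃ δ, δ = ε / 4 := ⟨_, rfl⟩
  have hδ0 : 0 < δ := by rw [hδ]; positivity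
  -- the bad sets
  obtain ⟨A, hA⟩ : ∃ A : ℕ → Finset (ℤ × ℤ), A = fun T : ℕ => (Bx T).filter (fun t =>
    ((SS t.1 t.2).card : ℝ) - (BB t.1 t.2).card < (3 / 2 - δ) * Real.log (Real.log T)) :=
    ⟨_, rfl⟩
  obtain ⟨R, hR⟩ : ∃ R : ℕ → Finset (ℤ × ℤ), R = fun T : ℕ => (Bx T).filter (fun t =>
    δ * Real.log (Real.log T) < (Module.finrank ℤ (F4 t.1 t.2).toAffine.Point : ℝ)) :=
    ⟨_, rfl⟩
  have hA0 : Tendsto (fun T : ℕ => ((A T).card : ℝ) / (T : ℝ) ^ 2) atTop (nhds 0) := by
    rw [hA]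
    exact hdens δ hδ0
  have hR1 : ∀ T : ℕ, 1 ≤ T → ((R T).card : ℝ) / (T : ℝ) ^ 2 ≤
      C * Real.exp (-(δ * Real.log (Real.log T))) := by
    intro T hT
    have hT0 : (0 : ℝ) < (T : ℝ) ^ 2 := by
      have : (0 : ℝ) < T := by exact_mod_cast hT
      positivity
    have e1 : ((R T).card : ℝ) * Real.exp (δ * Real.log (Real.log T)) ≤ C * (T : ℝ) ^ 2 := by
      calc ((R T).card : ℝ) * Real.exp (δ * Real.log (Real.log T))
          = ∑ t ∈ R T, Real.exp (δ * Real.log (Real.log T)) := by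
            rw [sum_const, nsmul_eq_mul]
        _ ≤ ∑ t ∈ R T, (wt (4 * t.1) (4 * t.2)) ^ 2 := by
            apply sum_le_sum
            intro t ht
            rw [hR] at ht
            obtain ⟨ht1, ht2⟩ := mem_filter.1 ht
            obtain ⟨_, t1, t2, t3⟩ := mem_filter.1 ht1
            obtain ⟨_, hrk⟩ := h1 t.1 t.2 t1 t2 t3
            have f1 : (2 : ℝ) ^ Module.finrank ℤ (F4 t.1 t.2).toAffine.Point ≤
                wt (4 * t.1) (4 * t.2) := by
              unfold wt
              calc (2 : ℝ) ^ Module.finrank ℤ (F4 t.1 t.2).toAffine.Point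
                  ≤ 2 ^ Module.finrank ℤ (E (4 * t.1) (4 * t.2)).toAffine.Point :=
                    pow_le_pow_right₀ (by norm_num) hrk
                _ ≤ _ := le_mul_of_one_le_right (by positivity) (card_pos_E t1 t2 t3)
            have f2 : Real.exp (δ * Real.log (Real.log T)) ≤
                ((2 : ℝ) ^ Module.finrank ℤ (F4 t.1 t.2).toAffine.Point) ^ 2 := by
              calc Real.exp (δ * Real.log (Real.log T))
                  ≤ Real.exp (Module.finrank ℤ (F4 t.1 t.2).toAffine.Point : ℝ) :=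
                    Real.exp_le_exp.2 ht2.le
                _ = Real.exp 1 ^ Module.finrank ℤ (F4 t.1 t.2).toAffine.Point := by
                    rw [← Real.exp_nat_mul, mul_one]
                _ ≤ 4 ^ Module.finrank ℤ (F4 t.1 t.2).toAffine.Point :=
                    pow_le_pow_left₀ (Real.exp_pos 1).le
                      (Real.exp_one_lt_d9.le.trans (by norm_num)) _
                _ = _ := by
                    rw [← pow_mul, mul_comm, pow_mul]
                    norm_num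
            exact f2.trans (pow_le_pow_left₀ (by positivity) f1 2)
        _ ≤ ∑ t ∈ Bx T, (wt (4 * t.1) (4 * t.2)) ^ 2 := by
            apply sum_le_sum_of_subset_of_nonneg
            · rw [hR]
              exact filter_subset _ _
            · intro t _ _
              exact sq_nonneg _
        _ ≤ _ := hb T hT
    rw [div_le_iff₀ hT0, Real.exp_neg]
    have e2 := Real.exp_pos (δ * Real.log (Real.log T))
    calc ((R T).card : ℝ) = ((R T).card : ℝ) * Real.exp (δ * Real.log (Real.log T)) *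
          (Real.exp (δ * Real.log (Real.log T)))⁻¹ := by
            field_simp
      _ ≤ C * (T : ℝ) ^ 2 * (Real.exp (δ * Real.log (Real.log T)))⁻¹ :=
          mul_le_mul_of_nonneg_right e1 (by positivity)
      _ = _ := by ring
  have hR0 : Tendsto (fun T : ℕ => ((R T).card : ℝ) / (T : ℝ) ^ 2) atTop (nhds 0) := by
    have e1 : Tendsto (fun T : ℕ => C * Real.exp (-(δ * Real.log (Real.log T)))) atTop
        (nhds 0) := by
      have e2 : Tendsto (fun T : ℕ => δ * Real.log (Real.log (T : ℝ))) atTop atTop :=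
        ll_tendsto.const_mul_atTop hδ0
      have e3 := (Real.tendsto_exp_neg_atTop_nhds_zero.comp e2).const_mul C
      rw [mul_zero] at e3
      exact e3
    refine tendsto_of_tendsto_of_tendsto_of_le_of_le' tendsto_const_nhds e1 ?_ ?_
    · exact Eventually.of_forall fun T => by positivity
    · filter_upwards [eventually_ge_atTop 1] with T hT
      exact hR1 T hT
  -- the good set
  have hgood : ∀ᶠ T : ℕ in atTop, (Fam T).filter (fun t =>
      ¬ ∀ n : ℕ, (n : ℝ) ≤ (3 / 2 - ε) * Real.log (Real.log T) →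
        ∃ j : (Fin n → ZMod 2) →+ Sha (F4 t.1 t.2), Function.Injective j) ⊆ A T ∪ R T := by
    filter_upwards [ll_tendsto.eventually_ge_atTop (6 / δ)] with T hT6
    intro t ht
    obtain ⟨ht1, ht2⟩ := mem_filter.1 ht
    by_contra hcon
    apply ht2
    intro n hn
    rw [mem_union, not_or] at hcon
    obtain ⟨c1, c2⟩ := hcon
    have hBx := fam_sub T ht1
    obtain ⟨_, t1, t2, t3⟩ := mem_filter.1 hBx
    rw [hA, mem_filter, not_and, not_lt] at c1
    rw [hR, mem_filter, not_and, not_lt] at c2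
    have c1' := c1 hBx
    have c2' := c2 hBx
    obtain ⟨hfg, _⟩ := h1 t.1 t.2 t1 t2 t3
    obtain ⟨D, hD, hcard⟩ := hcnt t.1 t.2 t1 t2 t3
    have h6 : 6 ≤ δ * Real.log (Real.log T) := by
      rw [div_le_iff₀ hδ0] at hT6
      linarith
    have h7 : (n : ℝ) + 6 + (Module.finrank ℤ (F4 t.1 t.2).toAffine.Point : ℝ) +
        (BB t.1 t.2).card ≤ (SS t.1 t.2).card := by
      have e1 : ε = 4 * δ := by rw [hδ]; ring
      rw [e1] at hn
      nlinarith
    have h8 : n + 6 + Module.finrank ℤ (F4 t.1 t.2).toAffine.Point + (BB t.1 t.2).card ≤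
        (SS t.1 t.2).card := by exact_mod_cast h7
    have h9 : 16 * 2 ^ Module.finrank ℤ (F4 t.1 t.2).toAffine.Point * 2 ^ n ≤ D.card := by
      have g1 : 2 ^ ((BB t.1 t.2).card + 2) *
          (16 * 2 ^ Module.finrank ℤ (F4 t.1 t.2).toAffine.Point * 2 ^ n) ≤
          2 ^ ((BB t.1 t.2).card + 2) * D.card := by
        refine le_trans ?_ hcard
        calc _ = 2 ^ (n + 6 + Module.finrank ℤ (F4 t.1 t.2).toAffine.Point +
              (BB t.1 t.2).card) := by
              simp only [pow_add]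
              ring
          _ ≤ _ := Nat.pow_le_pow_right (by norm_num) h8
      exact Nat.le_of_mul_le_mul_left g1 (by positivity)
    exact hker t.1 t.2 t1 t2 t3 hfg D n (fun d hd => (hD d hd).1)
      (fun d hd s hs => hmem t.1 t.2 t1 t2 t3 d s (hD d hd) hs) h9
  -- the conclusion
  have hlim : Tendsto (fun T : ℕ => 1 - 4 * (((A T).card : ℝ) / (T : ℝ) ^ 2 +
      ((R T).card : ℝ) / (T : ℝ) ^ 2)) atTop (nhds 1) := by
    have := (hA0.add hR0).const_mul 4
    have h2 := this.const_sub 1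
    simpa using h2
  refine tendsto_of_tendsto_of_tendsto_of_le_of_le' hlim tendsto_const_nhds ?_ ?_
  · filter_upwards [hgood, eventually_ge_atTop 1] with T hg hT
    have hT0 : (0 : ℝ) < (T : ℝ) ^ 2 := by
      have : (0 : ℝ) < T := by exact_mod_cast hT
      positivity
    have hf := fam_low T hT
    have hf0 : (0 : ℝ) < (Fam T).card := by nlinarith
    have h5 := card_filter_add_card_filter_not (s := Fam T) (fun t =>
      ∀ n : ℕ, (n : ℝ) ≤ (3 / 2 - ε) * Real.log (Real.log T) →
        ∃ j : (Fin n → ZMod 2) →+ Sha (F4 t.1 t.2), Function.Injective j)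
    have h6 : ((Fam T).filter (fun t => ¬ ∀ n : ℕ, (n : ℝ) ≤ (3 / 2 - ε) *
        Real.log (Real.log T) → ∃ j : (Fin n → ZMod 2) →+ Sha (F4 t.1 t.2),
          Function.Injective j)).card ≤ (A T).card + (R T).card :=
      (card_le_card hg).trans (card_union_le _ _)
    have h7 : ((Fam T).card : ℝ) - ((A T).card + (R T).card) ≤ (((Fam T).filter (fun t =>
      ∀ n : ℕ, (n : ℝ) ≤ (3 / 2 - ε) * Real.log (Real.log T) →
        ∃ j : (Fin n → ZMod 2) →+ Sha (F4 t.1 t.2), Function.Injective j)).card : ℝ) := by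
      have : (Fam T).card ≤ (((Fam T).filter (fun t =>
        ∀ n : ℕ, (n : ℝ) ≤ (3 / 2 - ε) * Real.log (Real.log T) →
        ∃ j : (Fin n → ZMod 2) →+ Sha (F4 t.1 t.2), Function.Injective j)).card) +
        ((A T).card + (R T).card) := by omega
      have h8 : ((Fam T).card : ℝ) ≤ (((Fam T).filter (fun t =>
        ∀ n : ℕ, (n : ℝ) ≤ (3 / 2 - ε) * Real.log (Real.log T) →
        ∃ j : (Fin n → ZMod 2) →+ Sha (F4 t.1 t.2), Function.Injective j)).card : ℝ) +
        ((A T).card + (R T).card) := by exact_mod_cast this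
      linarith
    rw [le_div_iff₀ hf0]
    refine le_trans ?_ h7
    have h9 : ((A T).card : ℝ) + (R T).card ≤ 4 * (((A T).card : ℝ) / (T : ℝ) ^ 2 +
        ((R T).card : ℝ) / (T : ℝ) ^ 2) * (Fam T).card := by
      have g1 : ((A T).card : ℝ) / (T : ℝ) ^ 2 + ((R T).card : ℝ) / (T : ℝ) ^ 2 =
          (((A T).card : ℝ) + (R T).card) / (T : ℝ) ^ 2 := by rw [add_div]
      rw [g1]
      calc ((A T).card : ℝ) + (R T).card
          = 4 * ((((A T).card : ℝ) + (R T).card) / (T : ℝ) ^ 2) * (1 / 4 * (T : ℝ) ^ 2) := by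
            field_simp
        _ ≤ _ := mul_le_mul_of_nonneg_left hf (by positivity)
    linarith
  · exact Eventually.of_forall fun T => div_le_one_of_le₀
      (by exact_mod_cast card_filter_le _ _) (Nat.cast_nonneg _)

end Pool.Agent.W307.LS
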