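import Pool.Agent.W307.LS.Stm

/-!
# Project LS: the admissible cocycles are everywhere locally trivial
-/

set_option autoImplicit false

namespace Pool.Agent.W307.LS

open Finset WeierstrassCurve Pool.Agent.W262.SH Filter

open scoped Classical

/-- the point `(0, 0)` -/
noncomputable def T0W (W : WeierstrassCurve ℚ) (L : Type) [Field L] [Algebra ℚ L] : Pt W L :=
  if h : (W.baseChange L).toAffine.Nonsingular 0 0 then Affine.Point.some 0 0 h else 0

/-- the cocycle that belongs to the square root `s` of an integer -/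
noncomputable def csW (W : WeierstrassCurve ℚ) (s : QB) (σ : QB ≃ₐ[ℚ] QB) : Pt W QB :=
  if σ s = s then 0 else T0W W QB

lemma cs_eq (a b : ℤ) (s : QB) : cs a b s = csW (F4 a b) s := rfl

lemma F4_swap (a b : ℤ) : F4 a b = F4 b a := by
  unfold F4
  congr 1
  · ring
  · ring

lemma loc_swap {a b : ℤ} {K : Type} [Field K] [Algebra ℚ K] {s : QB}
    (h : LocTriv (F4 b a) K (cs b a s)) : LocTriv (F4 a b) K (cs a b s) := by
  rw [cs_eq] at h ⊢
  rw [F4_swap a b]
  exact h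

lemma rep_swap {a b : ℤ} {K : Type} [Field K] {d : ℤ} (h : Rep b a K d) : Rep a b K d := by
  rcases h with h | ⟨x, y, k, hk, hx, hy⟩
  · exact Or.inl h
  · exact Or.inr ⟨x, y, k, hk, hx, by rw [hy]; ring⟩

lemma loc_add {W : WeierstrassCurve ℚ} {K : Type} [Field K] [Algebra ℚ K]
    {f g : (QB ≃ₐ[ℚ] QB) → Pt W QB} (hf : LocTriv W K f) (hg : LocTriv W K g) :
    LocTriv W K (f + g) := by
  intro ι
  obtain ⟨P, hP⟩ := hf ι
  obtain ⟨Q, hQ⟩ := hg ι
  refine ⟨P + Q, fun τ σ h => ?_⟩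
  simp only [Pi.add_apply, map_add, hP τ σ h, hQ τ σ h]
  abel

lemma loc_neg {W : WeierstrassCurve ℚ} {K : Type} [Field K] [Algebra ℚ K]
    {f : (QB ≃ₐ[ℚ] QB) → Pt W QB} (hf : LocTriv W K f) : LocTriv W K (-f) := by
  intro ι
  obtain ⟨P, hP⟩ := hf ι
  refine ⟨-P, fun τ σ h => ?_⟩
  simp only [Pi.neg_apply, map_neg, hP τ σ h]
  abel

lemma exists_sq (d : ℤ) : ∃ s : QB, s ^ 2 = (d : QB) :=
  IsAlgClosed.exists_pow_nat_eq _ (by norm_num)

lemma loc_of_rep (h1 : LT1) (h2 : LT2) {a b : ℤ} (ha : a ≠ 0) (hb : b ≠ 0) (hab : a ≠ b)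
    {K : Type} [Field K] [Algebra ℚ K] {d : ℤ} (hd : d ≠ 0) {s : QB} (hs : s ^ 2 = (d : QB))
    (h : Rep a b K d) : LocTriv (F4 a b) K (cs a b s) := by
  rcases h with ⟨k, hk⟩ | ⟨x, y, k, hk, hx, hy⟩
  · exact h1 a b K d s k hs hk
  · exact h2 a b ha hb hab K d s x y k hd hs hk hx hy

lemma loc_SS (hadd : ADD) (h1 : LT1) (h2 : LT2) (hsp : PTS) {a b : ℤ} (ha : a ≠ 0) (hb : b ≠ 0)
    (hab : a ≠ b) {p : ℕ} [Fact p.Prime] (hp : p ≠ 2) (hpa : (p : ℤ) ∣ a)
    (hpa2 : ¬ (p : ℤ) ^ 2 ∣ a) (hpb : ¬ (p : ℤ) ∣ b) {d : ℤ} (hd : d ≠ 0) {s : QB}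
    (hs : s ^ 2 = (d : QB)) : LocTriv (F4 a b) ℚ_[p] (cs a b s) := by
  obtain ⟨e, f, he, hf, hre, hrf, k, hk⟩ := hsp p a b d hp hpa hpa2 hpb hd
  obtain ⟨te, hte⟩ := exists_sq e
  obtain ⟨tf, htf⟩ := exists_sq f
  have e1 : (s * te) ^ 2 = ((d * e : ℤ) : QB) := by
    push_cast
    rw [mul_pow, hs, hte]
  have e2 : (s * te * tf) ^ 2 = ((d * e * f : ℤ) : QB) := by
    rw [mul_pow, e1, htf]
    push_cast
    ring
  have f1 := h1 a b ℚ_[p] (d * e * f) (s * te * tf) k e2 hk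
  have f2 := loc_of_rep h1 h2 ha hb hab he hte hre
  have f3 := loc_of_rep h1 h2 ha hb hab hf htf hrf
  have g1 : cs a b (s * te * tf) = cs a b s + cs a b te + cs a b tf := by
    rw [hadd a b (d * e) f (s * te) tf e1 htf (mul_ne_zero hd he) hf,
      hadd a b d e s te hs hte hd he]
  have g2 : cs a b s = cs a b (s * te * tf) + -(cs a b te) + -(cs a b tf) := by
    rw [g1]
    abel
  rw [g2]
  exact loc_add (loc_add f1 (loc_neg f2)) (loc_neg f3)

theorem mem_of (hcoc : COC) (hadd : ADD) (h1 : LT1) (h2 : LT2) (hg : PTG) (hn : PTN)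
    (hsp : PTS) (hq : PTQ) : MEM := by
  intro a b ha hb hab d s hadm hs
  obtain ⟨hsq, hd8, hSS, hBB⟩ := hadm
  have hd0 : (d : ℤ) ≠ 0 := by exact_mod_cast hsq.ne_zero
  have hs' : s ^ 2 = (((d : ℤ)) : QB) := by rw [hs]; push_cast; rfl
  have hab0 : a * b ≠ 0 := mul_ne_zero ha hb
  have hall : a * b * (a - b) ≠ 0 := mul_ne_zero hab0 (sub_ne_zero.2 hab)
  refine ⟨hcoc a b d s hs' hd0, fun p hp => ?_, ?_⟩
  · have hpp : p.Prime := hp.out
    by_cases hp2 : p = 2
    · subst hp2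
      obtain ⟨k, hk⟩ := hq.2 d (by omega)
      exact h1 a b ℚ_[2] d s k hs' hk
    · have hpi : Prime (p : ℤ) := Nat.prime_iff_prime_int.1 hpp
      by_cases hpS : p ∈ SS a b
      · obtain ⟨c1, _, c3⟩ := mem_filter.1 hpS
        have c1' : (p : ℤ) ∣ a * b := by
          have := Nat.dvd_of_mem_primeFactors c1
          exact Int.natCast_dvd.2 this
        rcases hpi.dvd_or_dvd c1' with hpa | hpb
        · have hpb : ¬ (p : ℤ) ∣ b := fun h => c3 (by rw [pow_two]; exact mul_dvd_mul hpa h)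
          exact loc_SS hadd h1 h2 hsp ha hb hab hp2 hpa (fun h => c3 (h.mul_right b)) hpb hd0 hs'
        · have hpa : ¬ (p : ℤ) ∣ a := fun h => c3 (by rw [pow_two]; exact mul_dvd_mul h hpb)
          exact loc_swap (loc_SS hadd h1 h2 hsp hb ha (Ne.symm hab) hp2 hpb
            (fun h => c3 (h.mul_left a)) hpa hd0 hs')
      · have hpd : ¬ (p : ℤ) ∣ (d : ℤ) := fun h => hpS (hSS p hpp (by exact_mod_cast h))
        have hsqr : jacobiSym (d : ℤ) p = 1 → LocTriv (F4 a b) ℚ_[p] (cs a b s) := fun h => by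
          obtain ⟨k, hk⟩ := hq.1 p d hp2 h
          exact h1 a b ℚ_[p] d s k hs' hk
        by_cases hpab : (p : ℤ) ∣ a * b
        · have hp2' : (p : ℤ) ^ 2 ∣ a * b := by
            by_contra hcon
            apply hpS
            rw [SS, mem_filter, Nat.mem_primeFactors]
            exact ⟨⟨hpp, Int.natCast_dvd.1 hpab, Int.natAbs_ne_zero.2 hab0⟩, hp2, hcon⟩
          apply hsqr
          apply hBB
          rw [BB, mem_filter, Nat.mem_primeFactors]
          exact ⟨⟨hpp, Int.natCast_dvd.1 (hpab.mul_right _), Int.natAbs_ne_zero.2 hall⟩, hp2,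
            Or.inl hp2'⟩
        · have hpa : ¬ (p : ℤ) ∣ a := fun h => hpab (h.mul_right b)
          have hpb : ¬ (p : ℤ) ∣ b := fun h => hpab (h.mul_left a)
          by_cases hpc : (p : ℤ) ∣ a - b
          · by_cases hj : jacobiSym a p = 1
            · apply hsqr
              apply hBB
              rw [BB, mem_filter, Nat.mem_primeFactors]
              exact ⟨⟨hpp, Int.natCast_dvd.1 (hpc.mul_left _), Int.natAbs_ne_zero.2 hall⟩, hp2,
                Or.inr ⟨hpc, hpab, hj⟩⟩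
            · have hj' : jacobiSym a p = -1 := by
                have hcop : Int.gcd a p = 1 := by
                  rw [Int.gcd_comm]
                  exact (Int.isCoprime_iff_gcd_eq_one.1 ((Prime.coprime_iff_not_dvd hpi).2 hpa))
                rcases jacobiSym.eq_one_or_neg_one hcop with h | h
                · exact absurd h hj
                · exact h
              exact loc_of_rep h1 h2 ha hb hab hd0 hs' (hn p a b d hp2 hj' hpd)
          · exact loc_of_rep h1 h2 ha hb hab hd0 hs' (hg p a b d hp2 hpa hpb hpc hpd)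
  · refine h1 a b ℝ d s (Real.sqrt d) hs' ?_
    rw [Real.sq_sqrt (Nat.cast_nonneg d)]
    push_cast
    rfl

end Pool.Agent.W307.LS
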